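import Pool.Agent.H.MP_922b93_an.B
namespace Pool.Agent.H.MP_90924b_an
open Filter Topology Complex Metric MP_922b93_an

noncomputable def pt (α : ℂ) : E := !₂[(‖α‖ ^ 2 / (1 + ‖α‖ ^ 2) : ℝ), α / (1 + ‖α‖ ^ 2 : ℝ)]

lemma nsq (α : ℂ) : ‖pt α‖ ^ 2 = ‖α‖ ^ 2 / (1 + ‖α‖ ^ 2) := by
  simp only [EuclideanSpace.norm_sq_eq, Fin.sum_univ_two, pt, Matrix.cons_val_zero, Matrix.cons_val_one,
    norm_div, norm_real, Real.norm_eq_abs, div_pow, sq_abs]
  field_simp; ring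

lemma line {α : ℂ} (h : α ≠ 0) (z : E) :
    inner ℂ (pt α) z = ((‖pt α‖ ^ 2 : ℝ) : ℂ) ↔ z 1 = α * (1 - z 0) := by
  have h1 : ((1 + ‖α‖ ^ 2 : ℝ) : ℂ) ≠ 0 := ofReal_ne_zero.2 (by positivity)
  have h2 : (starRingEnd ℂ) α ≠ 0 := by simpa
  rw [nsq]
  simp only [PiLp.inner_apply, Fin.sum_univ_two, pt, Matrix.cons_val_zero, Matrix.cons_val_one,
    RCLike.inner_apply, map_div₀, conj_ofReal, ofReal_div, ofReal_pow, ← conj_mul' α]
  generalize ((1 + ‖α‖ ^ 2 : ℝ) : ℂ) = c at *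
  simp only [map_mul, conj_conj]
  field_simp
  constructor <;> intro e <;> linear_combination e

theorem main : ∃ A : Set E, A.Countable ∧ A ⊆ ball 0 1 ∧
    (∀ a ∈ A, ‖a‖ < 3 / 4 ∨
      (|(1 - inner ℂ (EuclideanSpace.single 0 1 : E) a).im| ≤
          1 * (1 - inner ℂ (EuclideanSpace.single 0 1 : E) a).re ∧
        ‖a‖ ^ 2 - ‖inner ℂ (EuclideanSpace.single 0 1 : E) a‖ ^ 2 ≤
          1 / 2 * (1 - ‖inner ℂ (EuclideanSpace.single 0 1 : E) a‖ ^ 2) ∧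
        (1 - inner ℂ (EuclideanSpace.single 0 1 : E) a).re ≤ 1 / (1 ^ 2 + 1))) ∧
    (∃ f : E → ℂ, DifferentiableOn ℂ f (ball 0 1) ∧ (∃ M : ℝ, ∀ z ∈ ball (0 : E) 1, ‖f z‖ ≤ M) ∧
      (∃ z ∈ ball (0 : E) 1, f z ≠ 0) ∧ {z | z ∈ ball (0 : E) 1 ∧ f z = 0} =
        {z | z ∈ ball (0 : E) 1 ∧ ∃ a ∈ A, inner ℂ a z = ((‖a‖ ^ 2 : ℝ) : ℂ)}) ∧
    ¬ Summable fun a : A => 1 - ‖(a : E)‖ ^ 2 := by
  have h0 : ∀ z ∈ ball (0 : E) 1, 1 - z 0 ≠ 0 := fun z hz => sub_ne_zero.2 fun h => by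
    simpa [← h] using (PiLp.norm_apply_le z 0).trans_lt (mem_ball_zero_iff.1 hz)
  have h1 : ∀ α : ℂ, cos (8 * α ^ 2) = 0 → α ≠ 0 := fun α h e => by simp [e] at h
  refine ⟨pt '' {α | cos (8 * α ^ 2) = 0}, .image ?_ _, ?_, ?_, ⟨fun z => cexp (-(Q 1 z).1) *
    cos (8 * (Q 1 z).2 ^ 2), fun z hz => DifferentiableAt.differentiableWithinAt ?_, ⟨1, fun z hz => ?_⟩,
    ⟨0, by simp, by simp [Q]⟩, Set.ext fun z => and_congr_right fun hz => ?_⟩, fun h => ?_⟩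
  · refine (Set.countable_iUnion fun k : ℤ => Set.Finite.countable (s := {α : ℂ | α ^ 2 =
      (2 * k + 1) * Real.pi / 16}) ?_).mono fun α h => ?_
    · obtain ⟨β, e⟩ := IsAlgClosed.exists_pow_nat_eq ((2 * k + 1) * Real.pi / 16 : ℂ) two_pos
      exact (Set.toFinite {β, -β}).subset fun α h => sq_eq_sq_iff_eq_or_eq_neg.1 (h.trans e.symm)
    · obtain ⟨k, e⟩ := cos_eq_zero_iff.1 h
      exact Set.mem_iUnion.2 ⟨k, show α ^ 2 = _ by linear_combination e / 8⟩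
  · rintro _ ⟨α, -, rfl⟩
    rw [mem_ball_zero_iff, ← sq_lt_one_iff₀ (norm_nonneg _), nsq, div_lt_one (by positivity)]
    simp
  · rintro _ ⟨α, -, rfl⟩
    have e : inner ℂ (EuclideanSpace.single 0 1 : E) (pt α) = ((‖pt α‖ ^ 2 : ℝ) : ℂ) := by
      rw [nsq]; simp [EuclideanSpace.inner_single_left, pt]
    have e1 : ‖pt α‖ ^ 2 ≤ 1 := by rw [nsq, div_le_one (by positivity)]; simp
    rw [e, norm_real, Real.norm_of_nonneg (sq_nonneg _), sub_re, sub_im, ofReal_re, ofReal_im]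
    refine or_iff_not_imp_left.2 fun h => ⟨by simpa using sub_nonneg.2 e1, by nlinarith [sq_nonneg (1 - ‖pt α‖ ^ 2)], ?_⟩
    norm_num; nlinarith [not_lt.1 h]
  · have := h0 z hz
    simp only [Q, div_eq_mul_inv]
    fun_prop (disch := assumption)
  · have e := dQ 1 z
    have e1 := D0 (mem_ball_zero_iff.1 hz).le
    have e2 : ∀ w : ℂ, ‖w‖ ≤ ‖8 * (Q 1 z).2 ^ 2‖ → ‖cexp w‖ ≤ Real.exp (8 * ‖(Q 1 z).2‖ ^ 2) :=
      fun w hw => (norm_exp_le_exp_norm w).trans (Real.exp_le_exp.2 (by simpa using hw))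
    rw [norm_mul, Complex.norm_exp, cos, norm_div, Complex.norm_two]
    refine (mul_le_mul_of_nonneg_left (div_le_div_of_nonneg_right (norm_add_le_of_le
      (e2 _ (by simp)) (e2 _ (by simp))) zero_le_two) (Real.exp_pos _).le).trans ?_
    rw [add_self_div_two, ← Real.exp_add, Real.exp_le_one_iff, neg_re]
    rw [d] at e; linarith
  · have := h0 z hz
    simp only [mul_eq_zero, Complex.exp_ne_zero, false_or, Set.exists_mem_image, Q, ofReal_one, div_one]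
    exact ⟨fun h => ⟨_, h, (line (h1 _ h) z).2 (by field_simp)⟩, fun ⟨α, h, e⟩ => by
      rwa [(line (h1 _ h) z).1 e, mul_div_cancel_right₀ _ this]⟩
  · have e : ∀ k : ℕ, ‖((√((2 * k + 1) * Real.pi / 16) : ℝ) : ℂ)‖ ^ 2 = (2 * k + 1) * Real.pi / 16 :=
      fun k => by rw [norm_real, Real.norm_eq_abs, sq_abs, Real.sq_sqrt (by positivity)]
    have e1 : ∀ k : ℕ, 1 - ‖pt (√((2 * k + 1) * Real.pi / 16) : ℝ)‖ ^ 2 =
        1 / (1 + (2 * k + 1) * Real.pi / 16) := fun k => by rw [nsq, e]; field_simp; ring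
    obtain ⟨i, hi⟩ : ∃ i : ℕ → pt '' {α | cos (8 * α ^ 2) = 0}, ∀ k, 1 - ‖(i k).1‖ ^ 2 =
        1 / (1 + (2 * k + 1) * Real.pi / 16) := ⟨fun k => ⟨_, _, cos_eq_zero_iff.2 ⟨k, by
      rw [← ofReal_pow, Real.sq_sqrt (by positivity)]; push_cast; ring⟩, rfl⟩, e1⟩
    have := h.comp_injective (i := i) fun j k h => by
      have := hi j
      rw [h, hi k] at this
      simpa [Real.pi_ne_zero, eq_comm] using this
    refine Real.not_summable_one_div_natCast ((summable_nat_add_iff 2).1 (.of_nonneg_of_le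
      (fun k => by positivity) (fun k => ?_) this))
    rw [Function.comp, hi]
    refine one_div_le_one_div_of_le (by positivity) ?_
    push_cast
    nlinarith [Real.pi_le_four, k.cast_nonneg (α := ℝ)]

end Pool.Agent.H.MP_90924b_an
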